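import Pool.Agent.helper84.TP.SpecC

/-!
# Row KCF: the matrices `(1, -1; 0, 1)` and `(1, 0; 4, 1)` generate a free group without `-1`
-/

set_option autoImplicit false

namespace Pool.Agent.TP

open Function Pointwise

/-- the first attracting sets, on the first column of the matrix -/
def KCF_X : Fin 2 → Set (Matrix.SpecialLinearGroup (Fin 2) ℤ)
  | 0 => {g | g.1 1 0 = 0 ∨ g.1 1 0 * (2 * g.1 0 0 + g.1 1 0) < 0}
  | 1 => {g | g.1 0 0 = 0 ∨ 0 < g.1 0 0 * (g.1 1 0 - 2 * g.1 0 0)}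

/-- the second attracting sets -/
def KCF_Y : Fin 2 → Set (Matrix.SpecialLinearGroup (Fin 2) ℤ)
  | 0 => {g | g.1 1 0 ≠ 0 ∧ 0 ≤ g.1 1 0 * (2 * g.1 0 0 - g.1 1 0)}
  | 1 => {g | g.1 0 0 ≠ 0 ∧ g.1 0 0 * (g.1 1 0 + 2 * g.1 0 0) ≤ 0}

theorem KCF_ne (g : Matrix.SpecialLinearGroup (Fin 2) ℤ) : g.1 0 0 ≠ 0 ∨ g.1 1 0 ≠ 0 := by
  by_contra h
  push Not at h
  have h1 := g.2
  rw [Matrix.det_fin_two, h.1, h.2] at h1
  simp at h1

theorem KCF_d1 (X Y : ℤ) (h : X ≠ 0 ∨ Y ≠ 0) (h1 : Y = 0 ∨ Y * (2 * X + Y) < 0)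
    (h2 : X = 0 ∨ 0 < X * (Y - 2 * X)) : False := by
  rcases h1 with h1 | h1
  · subst h1
    rcases h2 with h2 | h2
    · rcases h with h | h
      · exact h h2
      · exact h rfl
    · nlinarith [sq_nonneg X]
  · rcases h2 with h2 | h2
    · subst h2
      nlinarith [sq_nonneg Y]
    · nlinarith [sq_nonneg X, sq_nonneg Y]

theorem KCF_d2 (X Y : ℤ) (h1 : Y ≠ 0) (h1' : 0 ≤ Y * (2 * X - Y)) (h2 : X ≠ 0)
    (h2' : X * (Y + 2 * X) ≤ 0) : False := by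
  have h3 : 0 < Y ^ 2 := by positivity
  have h4 : 0 < X ^ 2 := by positivity
  nlinarith

theorem KCF_d3 (X Y : ℤ) (h1 : Y = 0 ∨ Y * (2 * X + Y) < 0) (h2 : Y ≠ 0)
    (h2' : 0 ≤ Y * (2 * X - Y)) : False := by
  have h3 : 0 < Y ^ 2 := by positivity
  rcases h1 with h1 | h1
  · exact h2 h1
  · nlinarith

theorem KCF_d4 (X Y : ℤ) (h1 : Y = 0 ∨ Y * (2 * X + Y) < 0) (h2 : X ≠ 0)
    (h2' : X * (Y + 2 * X) ≤ 0) : False := by
  have h3 : 0 < X ^ 2 := by positivity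
  rcases h1 with h1 | h1
  · subst h1
    nlinarith
  · -- `A = -X Y > 0`, `2 A > Y²`, `A ≥ 2 X²`
    have hA : 0 < -(X * Y) := by nlinarith
    have hB : 0 < 2 * (-(X * Y)) - Y ^ 2 := by nlinarith
    have hC : 0 ≤ -(X * Y) - 2 * X ^ 2 := by nlinarith
    have h5 : 0 < (-(X * Y)) * (2 * (-(X * Y)) - Y ^ 2) := mul_pos hA hB
    have h6 : 0 ≤ Y ^ 2 * (-(X * Y) - 2 * X ^ 2) := mul_nonneg (sq_nonneg Y) hC
    nlinarith

theorem KCF_d5 (X Y : ℤ) (h1 : X = 0 ∨ 0 < X * (Y - 2 * X)) (h2 : Y ≠ 0)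
    (h2' : 0 ≤ Y * (2 * X - Y)) : False := by
  have h3 : 0 < Y ^ 2 := by positivity
  rcases h1 with h1 | h1
  · subst h1
    nlinarith
  · have hA : 0 < X * Y := by nlinarith [sq_nonneg X]
    have hB : 0 ≤ 2 * (X * Y) - Y ^ 2 := by nlinarith
    have hC : 0 < X * Y - 2 * X ^ 2 := by nlinarith
    have h5 : 0 ≤ (X * Y) * (2 * (X * Y) - Y ^ 2) := mul_nonneg hA.le hB
    have h6 : 0 < Y ^ 2 * (X * Y - 2 * X ^ 2) := mul_pos h3 hC
    nlinarith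

theorem KCF_d6 (X Y : ℤ) (h1 : X = 0 ∨ 0 < X * (Y - 2 * X)) (h2 : X ≠ 0)
    (h2' : X * (Y + 2 * X) ≤ 0) : False := by
  have h3 : 0 < X ^ 2 := by positivity
  rcases h1 with h1 | h1
  · exact h2 h1
  · nlinarith

theorem KCF_b (g : Matrix.SpecialLinearGroup (Fin 2) ℤ) :
    (bM * g).1 0 0 = g.1 0 0 - g.1 1 0 ∧ (bM * g).1 1 0 = g.1 1 0 := by
  have h : (bM * g).1 = bM.1 * g.1 := rfl
  rw [h]
  refine ⟨?_, ?_⟩ <;> simp [bM, Matrix.mul_apply, Fin.sum_univ_two, sub_eq_add_neg]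

theorem KCF_x (g : Matrix.SpecialLinearGroup (Fin 2) ℤ) :
    (xM * g).1 0 0 = g.1 0 0 ∧ (xM * g).1 1 0 = 4 * g.1 0 0 + g.1 1 0 := by
  have h : (xM * g).1 = xM.1 * g.1 := rfl
  rw [h]
  refine ⟨?_, ?_⟩ <;> simp [xM, Matrix.mul_apply, Fin.sum_univ_two]

theorem KCF_inj : Injective (FreeGroup.lift ![bM, xM]) := by
  refine FreeGroup.injective_lift_of_ping_pong ![bM, xM] KCF_X KCF_Y ?_ ?_ ?_ ?_ ?_ ?_
  · intro i
    fin_cases i
    · refine ⟨1, Or.inl ?_⟩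
      simp
    · refine ⟨⟨!![0, -1; 1, 0], by simp⟩, Or.inl ?_⟩
      simp
  · intro i j hij
    have key : Disjoint (KCF_X 0) (KCF_X 1) := by
      rw [Set.disjoint_left]
      intro g h1 h2
      exact KCF_d1 _ _ (KCF_ne g) h1 h2
    fin_cases i <;> fin_cases j
    · exact absurd rfl hij
    · exact key
    · exact key.symm
    · exact absurd rfl hij
  · intro i j hij
    have key : Disjoint (KCF_Y 0) (KCF_Y 1) := by
      rw [Set.disjoint_left]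
      intro g h1 h2
      exact KCF_d2 _ _ h1.1 h1.2 h2.1 h2.2
    fin_cases i <;> fin_cases j
    · exact absurd rfl hij
    · exact key
    · exact key.symm
    · exact absurd rfl hij
  · intro i j
    rw [Set.disjoint_left]
    intro g h1 h2
    fin_cases i <;> fin_cases j
    · exact KCF_d3 _ _ h1 h2.1 h2.2
    · exact KCF_d4 _ _ h1 h2.1 h2.2
    · exact KCF_d5 _ _ h1 h2.1 h2.2
    · exact KCF_d6 _ _ h1 h2.1 h2.2
  · intro i
    rintro _ ⟨g, hg, rfl⟩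
    fin_cases i
    · change bM * g ∈ KCF_X 0
      change ¬ (g.1 1 0 ≠ 0 ∧ 0 ≤ g.1 1 0 * (2 * g.1 0 0 - g.1 1 0)) at hg
      change (bM * g).1 1 0 = 0 ∨ (bM * g).1 1 0 * (2 * (bM * g).1 0 0 + (bM * g).1 1 0) < 0
      rw [(KCF_b g).1, (KCF_b g).2]
      by_cases h : g.1 1 0 = 0
      · exact Or.inl h
      · right
        have h1 : ¬ 0 ≤ g.1 1 0 * (2 * g.1 0 0 - g.1 1 0) := fun h2 => hg ⟨h, h2⟩
        nlinarith
    · change xM * g ∈ KCF_X 1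
      change ¬ (g.1 0 0 ≠ 0 ∧ g.1 0 0 * (g.1 1 0 + 2 * g.1 0 0) ≤ 0) at hg
      change (xM * g).1 0 0 = 0 ∨ 0 < (xM * g).1 0 0 * ((xM * g).1 1 0 - 2 * (xM * g).1 0 0)
      rw [(KCF_x g).1, (KCF_x g).2]
      by_cases h : g.1 0 0 = 0
      · exact Or.inl h
      · right
        have h1 : ¬ g.1 0 0 * (g.1 1 0 + 2 * g.1 0 0) ≤ 0 := fun h2 => hg ⟨h, h2⟩
        nlinarith
  · intro i
    rintro _ ⟨g, hg, rfl⟩
    fin_cases i
    · change bM⁻¹ * g ∈ KCF_Y 0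
      change ¬ (g.1 1 0 = 0 ∨ g.1 1 0 * (2 * g.1 0 0 + g.1 1 0) < 0) at hg
      obtain ⟨k, hk⟩ : ∃ k, k = bM⁻¹ * g := ⟨_, rfl⟩
      have hk2 : g = bM * k := by rw [hk, mul_inv_cancel_left]
      rw [← hk]
      rw [hk2, (KCF_b k).1, (KCF_b k).2] at hg
      push Not at hg
      exact ⟨hg.1, by nlinarith [hg.2]⟩
    · change xM⁻¹ * g ∈ KCF_Y 1
      change ¬ (g.1 0 0 = 0 ∨ 0 < g.1 0 0 * (g.1 1 0 - 2 * g.1 0 0)) at hg
      obtain ⟨k, hk⟩ : ∃ k, k = xM⁻¹ * g := ⟨_, rfl⟩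
      have hk2 : g = xM * k := by rw [hk, mul_inv_cancel_left]
      rw [← hk]
      rw [hk2, (KCF_x k).1, (KCF_x k).2] at hg
      push Not at hg
      exact ⟨hg.1, by nlinarith [hg.2]⟩

theorem KCF : KCF_stmt := by
  intro w
  have h1 : FreeGroup.lift ![bM, xM] w = 1 → w = 1 := by
    intro h
    apply KCF_inj
    rw [h, map_one]
  refine ⟨h1, fun h => ?_⟩
  have h2 : FreeGroup.lift ![bM, xM] (w ^ 2) = 1 := by
    rw [map_pow, h]
    simp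
  have h3 : w ^ 2 = 1 := by
    apply KCF_inj
    rw [h2, map_one]
  have h4 : w = 1 := by
    have h5 : w ^ 2 = 1 ^ 2 := by rw [h3, one_pow]
    exact pow_left_injective (two_ne_zero) h5
  rw [h4, map_one] at h
  have h6 := congrArg (fun g : Matrix.SpecialLinearGroup (Fin 2) ℤ => g.1 0 0) h
  simp at h6

end Pool.Agent.TP
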